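import Pool.Agent.Helper18.SV.Goals

/-! Packet SV-NG (MP_cb0067_co). -/

set_option autoImplicit false

open Finset
open scoped Pointwise

namespace Pool.Agent.Helper30.SV.NG

open Pool.Agent.Helper95.SF Pool.Agent.Helper18.SV

universe u

/-- the arithmetic of the sizes. -/
theorem arith {ι : Type u} [DecidableEq ι] (I : Finset ι) (f b : ι → ℕ) (r φ β : ℕ)
    (hφ : φ ≤ r) (hb : ∑ i ∈ I, b i = β) (h1 : ∀ i ∈ I, φ ≤ f i) (h2 : ∀ i ∈ I, b i ≤ f i)
    (h3 : ∀ i ∈ I, f i = r ∨ 2 * b i + φ ≤ 2 * f i) (h : ∑ i ∈ I, f i < φ + β) :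
    I.card * r < β + r := by
  by_cases hall : ∀ i ∈ I, f i = r
  · have h4 : ∑ i ∈ I, f i = I.card * r := by
      rw [Finset.sum_congr rfl hall, Finset.sum_const, smul_eq_mul]
    omega
  · push Not at hall
    obtain ⟨i0, hi0, hne0⟩ := hall
    have h5 : ∀ i ∈ I, i ≠ i0 → f i = r := by
      intro i hi hii
      by_contra hne
      have h6 := (h3 i hi).resolve_left hne
      have h7 := (h3 i0 hi0).resolve_left hne0
      have h8 : ∑ j ∈ I, (2 * b j + ((if j = i0 then φ else 0) + if j = i then φ else 0)) ≤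
          ∑ j ∈ I, 2 * f j := by
        refine Finset.sum_le_sum fun j hj => ?_
        by_cases hj0 : j = i0
        · subst hj0
          rw [if_pos rfl, if_neg (fun h => hii h.symm)]
          omega
        · by_cases hji : j = i
          · subst hji
            rw [if_neg hj0, if_pos rfl]
            omega
          · rw [if_neg hj0, if_neg hji]
            have := h2 j hj
            omega
      rw [Finset.sum_add_distrib, Finset.sum_add_distrib, ← Finset.mul_sum, ← Finset.mul_sum, hb,
        Finset.sum_ite_eq', if_pos hi0, Finset.sum_ite_eq', if_pos hi] at h8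
      omega
    have h9 : ∑ j ∈ I, (r + if j = i0 then φ else 0) ≤
        ∑ j ∈ I, (f j + if j = i0 then r else 0) := by
      refine Finset.sum_le_sum fun j hj => ?_
      by_cases hj0 : j = i0
      · rw [if_pos hj0, if_pos hj0]
        have := h1 j hj
        omega
      · rw [if_neg hj0, if_neg hj0]
        have := h5 j hj hj0
        omega
    rw [Finset.sum_add_distrib, Finset.sum_add_distrib, Finset.sum_const, smul_eq_mul,
      Finset.sum_ite_eq', if_pos hi0, Finset.sum_ite_eq', if_pos hi0] at h9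
    omega

theorem t (hOLS : G_OLS.{u}) : G_NG.{u} := by
  intro K _ _ _ F B h0F h2F h0B hB hF hlt
  classical
  set R : AddSubgroup K := AddSubgroup.closure (F : Set K) with hR
  have hFR : ∀ x ∈ F, x ∈ R := fun x hx => AddSubgroup.subset_closure hx
  -- the pieces
  set I : Finset (K ⧸ R) := B.image (fun b : K => (b : K ⧸ R)) with hI
  set Bi : K ⧸ R → Finset K := fun i => B.filter (fun b => (b : K ⧸ R) = i) with hBi
  have hpi : ∀ x ∈ F, ∀ b : K, ((x + b : K) : K ⧸ R) = (b : K ⧸ R) := by
    intro x hx b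
    rw [QuotientAddGroup.eq_iff_sub_mem]
    rw [add_sub_cancel_right]
    exact hFR x hx
  have hne : ∀ i ∈ I, (Bi i).Nonempty := by
    intro i hi
    obtain ⟨b, hb, rfl⟩ := Finset.mem_image.mp hi
    exact ⟨b, Finset.mem_filter.mpr ⟨hb, rfl⟩⟩
  have hFne : F.Nonempty := ⟨0, h0F⟩
  have hcardB : ∑ i ∈ I, (Bi i).card = B.card :=
    (Finset.card_eq_sum_card_image (fun b : K => (b : K ⧸ R)) B).symm
  have hcardFB : ∑ i ∈ I, (F + Bi i).card = (F + B).card := by
    have h1 : (F + B) = I.biUnion (fun i => F + Bi i) := by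
      ext z
      rw [Finset.mem_biUnion, Finset.mem_add]
      constructor
      · rintro ⟨x, hx, b, hb, rfl⟩
        exact ⟨(b : K ⧸ R), Finset.mem_image.mpr ⟨b, hb, rfl⟩,
          Finset.add_mem_add hx (Finset.mem_filter.mpr ⟨hb, rfl⟩)⟩
      · rintro ⟨i, hi, hz⟩
        obtain ⟨x, hx, b, hb, rfl⟩ := Finset.mem_add.mp hz
        exact ⟨x, hx, b, (Finset.mem_filter.mp hb).1, rfl⟩
    rw [h1, Finset.card_biUnion]
    intro i _ j _ hij
    change Disjoint (F + Bi i) (F + Bi j)
    rw [Finset.disjoint_left]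
    intro z hz hz'
    obtain ⟨x, hx, b, hb, rfl⟩ := Finset.mem_add.mp hz
    obtain ⟨x', hx', b', hb', he⟩ := Finset.mem_add.mp hz'
    apply hij
    have h2 := hpi x hx b
    have h3 := hpi x' hx' b'
    rw [he, h2] at h3
    rw [← (Finset.mem_filter.mp hb).2, ← (Finset.mem_filter.mp hb').2, h3]
  have hφ : F.card ≤ Nat.card R := by
    have h1 : (F : Set K) ⊆ (R : Set K) := fun x hx => hFR x hx
    have h2 := Set.ncard_le_ncard h1 (Set.toFinite _)
    rwa [Set.ncard_coe_finset] at h2
  have h3 : ∀ i ∈ I, (F + Bi i).card = Nat.card R ∨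
      2 * (Bi i).card + F.card ≤ 2 * (F + Bi i).card := by
    intro i hi
    obtain ⟨g, hg⟩ := hne i hi
    have h4 := hOLS K R F h0F rfl (Bi i) g ⟨g, hg⟩ (by
      intro x hx
      rw [← QuotientAddGroup.eq_iff_sub_mem, (Finset.mem_filter.mp hx).2,
        (Finset.mem_filter.mp hg).2])
    rwa [add_comm (Bi i) F] at h4
  have hmain := arith I (fun i => (F + Bi i).card) (fun i => (Bi i).card) (Nat.card R) F.card
    B.card hφ hcardB (fun i hi => Finset.card_le_card_add_right (hne i hi))
    (fun i _ => Finset.card_le_card_add_left hFne) h3 (by rw [hcardFB]; exact hlt)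
  have hnc : nc R B = I.card := by
    unfold nc
    rw [hI, ← Set.ncard_coe_finset, Finset.coe_image]
  refine ⟨R, ?_, ?_, ?_⟩
  · intro hbot
    obtain ⟨x, hx, hx0⟩ : ∃ x ∈ F, x ≠ 0 := by
      by_contra hcon
      push Not at hcon
      have h5 : F ⊆ {0} := fun x hx => Finset.mem_singleton.mpr (hcon x hx)
      have := Finset.card_le_card h5
      rw [Finset.card_singleton] at this
      omega
    have h6 := hFR x hx
    rw [hbot, AddSubgroup.mem_bot] at h6
    exact hx0 h6
  · rw [hnc]
    obtain ⟨b, hb, hbR⟩ : ∃ b ∈ B, b ∉ R := by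
      by_contra hcon
      push Not at hcon
      apply hF
      rw [eq_top_iff, ← hB, AddSubgroup.closure_le]
      exact fun x hx => hcon x hx
    have h7 : ((b : K) : K ⧸ R) ≠ ((0 : K) : K ⧸ R) := by
      intro h
      rw [QuotientAddGroup.eq_iff_sub_mem, sub_zero] at h
      exact hbR h
    have h8 : 1 < I.card := Finset.one_lt_card.mpr
      ⟨(b : K ⧸ R), Finset.mem_image.mpr ⟨b, hb, rfl⟩, ((0 : K) : K ⧸ R),
        Finset.mem_image.mpr ⟨0, h0B, rfl⟩, h7⟩
    omega
  · rw [hnc]
    exact hmain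

end Pool.Agent.Helper30.SV.NG
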