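import Pool.Agent.Helper2.SV.GoalsF

/-!
# Packet LD of project SV (helper2)
-/

set_option autoImplicit false

namespace Pool.Agent.Helper30.SV

open Pool.Agent.Helper2.SV

theorem coconn_insert {V : Type} {G : SimpleGraph V} {R : Set V} {v b0 : V} (h : CoConn G R)
    (hb0 : b0 ∈ R) (hv : ¬ G.Adj v b0) : CoConn G (insert v R) := by
  intro P hP hPn hPne
  by_cases h1 : (P ∩ R).Nonempty
  · by_cases h2 : P ∩ R = R
    · have hRP : R ⊆ P := by
        intro x hx
        rw [← h2] at hx
        exact hx.1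
      have hvP : v ∉ P := by
        intro hvP
        exact hPne (Set.Subset.antisymm hP (Set.insert_subset hvP hRP))
      exact ⟨b0, hRP hb0, v, Set.mem_insert _ _, hvP, fun e => hv e.symm⟩
    · obtain ⟨a, ha, b, hb, hbP, hab⟩ := h (P ∩ R) Set.inter_subset_right h1 h2
      exact ⟨a, ha.1, b, Set.mem_insert_of_mem _ hb, fun e => hbP ⟨e, hb⟩, hab⟩
  · have hb0P : b0 ∉ P := fun e => h1 ⟨b0, e, hb0⟩
    obtain ⟨p, hp⟩ := hPn
    have hpv : p = v := by
      rcases hP hp with e | e
      · exact e
      · exact absurd ⟨p, hp, e⟩ h1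
    subst hpv
    exact ⟨p, hp, b0, Set.mem_insert_of_mem _ hb0, hb0P, hv⟩

theorem goalLD : G_LD := by
  intro V hV G hprime hfork y R hRM hR2 hRc
  have key : ∀ n : ℕ, ∀ R : Set V, Rᶜ.ncard = n → R ⊆ Mn G y → (∃ a ∈ R, ∃ b ∈ R, a ≠ b) →
      CoConn G R → ∃ x, G.Adj y x ∧ ∃ r ∈ R, ¬ G.Adj x r := by
    intro n
    induction n using Nat.strong_induction_on with
    | _ n ih =>
      intro R hn hRM hR2 hRc
      by_contra hcon
      push Not at hcon
      have hyR : y ∉ R := fun e => (hRM e).1 rfl
      have hnh : ¬ ∀ x, x ∉ R → (∀ y ∈ R, G.Adj x y) ∨ (∀ y ∈ R, ¬ G.Adj x y) := by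
        intro e
        have := hprime R e hR2
        rw [this] at hyR
        exact hyR (Set.mem_univ _)
      push Not at hnh
      obtain ⟨v, hvR, ⟨b0, hb0, hvb0⟩, a0, ha0, hva0⟩ := hnh
      have hvy : v ≠ y := by
        rintro rfl
        exact (hRM ha0).2 hva0
      have hyv : ¬ G.Adj y v := fun e => hvb0 (hcon v e b0 hb0)
      have hlt : (insert v R)ᶜ.ncard < n := by
        rw [← hn]
        refine Set.ncard_lt_ncard ?_ (Set.toFinite _)
        constructor
        · exact Set.compl_subset_compl.mpr (Set.subset_insert _ _)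
        · intro e
          exact (e hvR) (Set.mem_insert _ _)
      obtain ⟨x, hyx, r, hr, hxr⟩ := ih _ hlt (insert v R) rfl
        (Set.insert_subset ⟨hvy, hyv⟩ hRM)
        (by
          obtain ⟨a, ha, b, hb, hab⟩ := hR2
          exact ⟨a, Set.mem_insert_of_mem _ ha, b, Set.mem_insert_of_mem _ hb, hab⟩)
        (coconn_insert hRc hb0 hvb0)
      have hxv : ¬ G.Adj x v := by
        rcases hr with e | e
        · rw [← e]; exact hxr
        · exact absurd (hcon x hyx r e) hxr
      obtain ⟨a, ha, b, hb, hbP, hab⟩ := hRc {z | z ∈ R ∧ G.Adj v z} (fun z hz => hz.1)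
        ⟨a0, ha0, hva0⟩ (by
          intro e
          have : b0 ∈ {z | z ∈ R ∧ G.Adj v z} := by rw [e]; exact hb0
          exact hvb0 this.2)
      have hvb : ¬ G.Adj v b := fun e => hbP ⟨hb, e⟩
      have hav : G.Adj a v := ha.2.symm
      have hxa := hcon x hyx a ha.1
      have hxb := hcon x hyx b hb
      have hne : b ≠ a := by
        rintro rfl
        exact hvb ha.2
      have hvx : v ≠ x := by
        rintro rfl
        exact hyv hyx
      have := hfork x y b a v hyx.symm hxb hxa hav (fun e => (hRM hb).1 e.symm)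
        (fun e => (hRM ha.1).1 e.symm) hne hvx
      rcases this with e | e | e | e | e | e
      · exact (hRM hb).2 e
      · exact (hRM ha.1).2 e
      · exact hab e.symm
      · exact hxv e
      · exact hyv e
      · exact hvb e.symm
  exact key _ R rfl hRM hR2 hRc

end Pool.Agent.Helper30.SV
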